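import Mathlib
import Pool.Agent.Lib.helper28.HarB

open Set Filter Topology InnerProductSpace H28Har

namespace Pool.Agent.Results.MP_677f70_an.Yes

noncomputable def T {n : ℕ} (j : Fin n) (x : E n) : ℝ := ∑ i ∈ Finset.univ.erase j, |x i|

def dom {n : ℕ} (j : Fin n) (m y : ℝ) : Set (E n) :=
  {x | y < x j ∧ T j x < m / 2 * (x j * Real.log (x j))}

lemma T_cont {n : ℕ} (j : Fin n) : Continuous (T j) := by
  unfold T; fun_prop

lemma T_nonneg {n : ℕ} (j : Fin n) (x : E n) : 0 ≤ T j x :=
  Finset.sum_nonneg fun _ _ => abs_nonneg _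

lemma le_T {n : ℕ} {j i : Fin n} (h : i ∈ Finset.univ.erase j) (x : E n) : |x i| ≤ T j x :=
  Finset.single_le_sum (f := fun i => |x i|) (fun _ _ => abs_nonneg _) h

lemma cont_rhs {n : ℕ} (j : Fin n) (m : ℝ) :
    Continuous fun x : E n => m / 2 * (x j * Real.log (x j)) :=
  continuous_const.mul (Real.continuous_mul_log.comp (by fun_prop))

lemma cj {n : ℕ} (j : Fin n) : Continuous fun x : E n => x j := by fun_prop

lemma dom_open {n : ℕ} (j : Fin n) (m y : ℝ) : IsOpen (dom j m y) :=
  (isOpen_lt continuous_const (cj j)).inter (isOpen_lt (T_cont j) (cont_rhs j m))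

lemma norm_le {n : ℕ} (j : Fin n) (x : E n) : ‖x‖ ≤ |x j| + T j x := by
  have h1 := (EuclideanSpace.basisFun (Fin n) ℝ).sum_repr x
  calc ‖x‖ = ‖∑ i, (EuclideanSpace.basisFun (Fin n) ℝ).repr x i •
        (EuclideanSpace.basisFun (Fin n) ℝ) i‖ := by rw [h1]
    _ ≤ ∑ i, ‖(EuclideanSpace.basisFun (Fin n) ℝ).repr x i •
        (EuclideanSpace.basisFun (Fin n) ℝ) i‖ := norm_sum_le _ _
    _ = ∑ i, |x i| := by simp [norm_smul]
    _ = _ := (Finset.add_sum_erase _ (fun i => |x i|) (Finset.mem_univ j)).symm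

lemma mono_log {a b : ℝ} (ha : 1 ≤ a) (hab : a ≤ b) : a * Real.log a ≤ b * Real.log b :=
  mul_le_mul hab (Real.log_le_log (by linarith) hab) (Real.log_nonneg ha) (by linarith)

lemma T_single {n : ℕ} (j : Fin n) (t : ℝ) : T j (EuclideanSpace.single j t) = 0 := by
  refine Finset.sum_eq_zero fun i hi => ?_
  simp [Finset.ne_of_mem_erase hi]

lemma box_convex {n : ℕ} (j : Fin n) (t c : ℝ) : Convex ℝ {x : E n | t ≤ x j ∧ T j x < c} := by
  have h1 : ConvexOn ℝ univ (T j) := by
    refine ⟨convex_univ, fun x _ y _ a b ha hb _ => ?_⟩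
    simp only [T, smul_eq_mul, Finset.mul_sum, ← Finset.sum_add_distrib]
    refine Finset.sum_le_sum fun i _ => ?_
    simp only [PiLp.add_apply, PiLp.smul_apply, smul_eq_mul]
    refine (abs_add_le _ _).trans ?_
    rw [abs_mul, abs_mul, abs_of_nonneg ha, abs_of_nonneg hb]
  have h2 := h1.convex_lt c
  have h3 : Convex ℝ {x : E n | t ≤ x j} := by
    intro x hx y hy a b ha hb hab
    have hx' : t ≤ x j := hx
    have hy' : t ≤ y j := hy
    show t ≤ (a • x + b • y) j
    simp only [PiLp.add_apply, PiLp.smul_apply, smul_eq_mul]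
    have : t = a * t + b * t := by rw [← add_mul, hab, one_mul]
    nlinarith
  have := h3.inter h2
  convert this using 1
  ext x; simp

lemma dom_conn {n : ℕ} (j : Fin n) {m y : ℝ} (hm : 0 < m) (hy : 1 ≤ y) :
    IsPreconnected (dom j m y) := by
  have key : ∀ x ∈ dom j m y,
      {z : E n | x j ≤ z j ∧ T j z < m / 2 * (x j * Real.log (x j))} ⊆ dom j m y :=
    fun x hx z hz => ⟨lt_of_lt_of_le hx.1 hz.1, hz.2.trans_le
      (mul_le_mul_of_nonneg_left (mono_log (by linarith [hx.1]) hz.1) (by positivity))⟩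
  refine isPreconnected_of_forall_pair fun x hx z hz => ?_
  refine ⟨_ ∪ _, union_subset (key x hx) (key z hz), Or.inl ⟨le_rfl, hx.2⟩, Or.inr ⟨le_rfl, hz.2⟩,
    IsPreconnected.union (EuclideanSpace.single j (max (x j) (z j))) ?_ ?_
      (box_convex j _ _).isPreconnected (box_convex j _ _).isPreconnected⟩
  · exact ⟨by simp, by rw [T_single]; exact (T_nonneg j x).trans_lt hx.2⟩
  · exact ⟨by simp, by rw [T_single]; exact (T_nonneg j z).trans_lt hz.2⟩

theorem result (n : ℕ) (hn : 2 ≤ n) :
    ∃ D : Set (EuclideanSpace ℝ (Fin n)), IsOpen D ∧ IsConnected D ∧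
      (∃ h : EuclideanSpace ℝ (Fin n) → ℝ, HarmonicOnNhd h D ∧ ∀ x ∈ D, ‖x‖ ≤ h x) ∧
      ¬ ∃ h : EuclideanSpace ℝ (Fin n) → ℝ, HarmonicOnNhd h D ∧
        ∀ x ∈ D, |x ⟨0, by omega⟩| * max (Real.log |x ⟨0, by omega⟩|) 0 ≤ h x := by
  set i0 : Fin n := ⟨0, by omega⟩ with hi0
  set j : Fin n := ⟨1, by omega⟩ with hj
  have hi0j : i0 ∈ Finset.univ.erase j := by simp [hi0, hj]
  set m : ℝ := ((Finset.univ.erase j).card : ℝ) with hm
  have hm1 : 1 ≤ m := by
    rw [hm]; exact_mod_cast Finset.card_pos.2 ⟨i0, hi0j⟩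
  set μ0 := 100 * (m + 1) with hμ0
  set y0 := Real.exp (μ0 ^ 2) with hy0
  have hμ00 : 100 ≤ μ0 := by linarith
  have hy1 : 1 < y0 := Real.one_lt_exp_iff.2 (by positivity)
  have hlog : ∀ y, y0 ≤ y → μ0 ^ 2 ≤ Real.log y := fun y hy => by
    rw [Real.le_log_iff_exp_le (by linarith)]; exact hy
  have hne : ∀ i ∈ Finset.univ.erase j, j ≠ i := fun i hi => (Finset.ne_of_mem_erase hi).symm
  set z0 : E n := EuclideanSpace.single j (2 * y0) with hz0
  have hz0j : z0 j = 2 * y0 := by simp [hz0]
  have hz0D : z0 ∈ dom j m y0 := by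
    refine ⟨by rw [hz0j]; linarith, ?_⟩
    rw [hz0, T_single, ← hz0, hz0j]
    have := Real.log_pos (show 1 < 2 * y0 by linarith)
    positivity
  refine ⟨dom j m y0, dom_open _ _ _, ⟨⟨z0, hz0D⟩, dom_conn j (by linarith) hy1.le⟩, ?_, ?_⟩
  · refine ⟨(8:ℝ) • fun x => ∑ i ∈ Finset.univ.erase j, f1 (pr j i x), fun x hx => ?_,
      fun x hx => ?_⟩
    · exact (harm_sum _ fun i hi => harm_pr (hne i hi)
        (harm1 (by rw [pr_re]; linarith [hx.1]))).const_smul
    · have hx1 : y0 < x j := hx.1
      have hx2 := hx.2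
      have h1 : ∑ i ∈ Finset.univ.erase j, (x j * Real.log (x j) - 1.58 * |x i|) ≤
          ∑ i ∈ Finset.univ.erase j, f1 (pr j i x) := Finset.sum_le_sum fun i _ => by
        simpa using f1_ge (w := pr j i x) (by rw [pr_re]; linarith)
      rw [Finset.sum_sub_distrib, Finset.sum_const, nsmul_eq_mul, ← Finset.mul_sum, ← hm] at h1
      have h2 := norm_le j x
      rw [abs_of_pos (show 0 < x j by linarith)] at h2
      have h3 := hlog _ hx1.le
      have h4 : x j * 1 ≤ x j * Real.log (x j) :=
        mul_le_mul_of_nonneg_left (by nlinarith) (by linarith)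
      have h5 : 1 * (x j * Real.log (x j)) ≤ m * (x j * Real.log (x j)) :=
        mul_le_mul_of_nonneg_right hm1 (by linarith)
      show ‖x‖ ≤ 8 * ∑ i ∈ Finset.univ.erase j, f1 (pr j i x)
      have h6 : T j x = ∑ i ∈ Finset.univ.erase j, |x i| := rfl
      rw [← h6] at h1
      linarith
  · rintro ⟨H, hH, hHg⟩
    set u : E n → ℝ := fun x => ∑ i ∈ Finset.univ.erase j, f2 (pr j i x) with hu
    set v : E n → ℝ := fun x => f3 (pr j i0 x) with hv
    set g : E n → ℝ := fun x => |x i0| * max (Real.log |x i0|) 0 with hg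
    set C := 1.07 * m * y0 * μ0 ^ 3 with hC
    have hC0 : 0 < C := by positivity
    have huh : ∀ x : E n, y0 ≤ x j → HarmonicAt u x := fun x hx =>
      harm_sum _ fun i hi => harm_pr (hne i hi) (harm2 (by rw [pr_re]; linarith))
    have hvh : ∀ x : E n, y0 ≤ x j → HarmonicAt v x := fun x hx =>
      harm_pr (hne i0 hi0j) (harm3 (by rw [pr_re]; linarith))
    have hgc : Continuous g := by
      have : g = fun x => max (|x i0| * Real.log |x i0|) 0 := by
        ext x; simp only [hg]; rw [mul_max_of_nonneg _ _ (abs_nonneg _), mul_zero]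
      rw [this]
      exact (Real.continuous_mul_log.comp (by fun_prop)).max continuous_const
    have hu0 : C < u z0 := by
      have h1 : ∑ _i ∈ Finset.univ.erase j, 2 * y0 * μ0 ^ 3 ≤ u z0 :=
        Finset.sum_le_sum fun i hi => by
          have := f2_ge (w := pr j i z0) (μ := μ0) (by rw [pr_re, hz0j]; linarith) (by linarith)
            (by rw [pr_re, hz0j]; exact hlog _ (by linarith))
            (by simp [hz0, Finset.ne_of_mem_erase hi])
          rwa [pr_re, hz0j] at this
      rw [Finset.sum_const, nsmul_eq_mul, ← hm] at h1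
      have : 0 < m * y0 * μ0 ^ 3 := by positivity
      nlinarith
    set M := (|H z0| + |v z0| + 1) / (u z0 - C) with hM
    have hM0 : 0 < M := div_pos (by positivity) (by linarith)
    have hMe : M * (u z0 - C) = |H z0| + |v z0| + 1 := by
      rw [hM]; field_simp [(sub_pos.2 hu0).ne']
    set Y := Real.exp ((30 * M * m) ^ 2) + 3 * y0 with hY
    have hYy : 3 * y0 ≤ Y := by linarith [Real.exp_pos ((30 * M * m) ^ 2)]
    have hYl : (30 * M * m) ^ 2 ≤ Real.log Y := by
      rw [Real.le_log_iff_exp_le (by linarith)]; linarith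
    set B : E n → ℝ := M • (u - fun _ => C) - (1 / 7 : ℝ) • v with hB
    have hBx : ∀ x, B x = M * (u x - C) - 1 / 7 * v x := fun x => rfl
    have hBh : ∀ x : E n, y0 ≤ x j → HarmonicAt B x := fun x hx =>
      (((huh x hx).sub (harmonicAt_const C)).const_smul).sub (hvh x hx).const_smul
    set K : Set (E n) := {x | y0 ≤ x j ∧ x j ≤ Y ∧ T j x ≤ m / 2 * (x j * Real.log (x j))}
      with hK
    have hKc : IsCompact K := by
      refine Metric.isCompact_of_isClosed_isBounded ?_ ?_
      · exact (isClosed_le continuous_const (cj j)).inter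
          ((isClosed_le (cj j) continuous_const).inter (isClosed_le (T_cont j) (cont_rhs j m)))
      · refine (Metric.isBounded_closedBall (x := 0) (r := Y + m / 2 * (Y * Real.log Y))).subset
          fun x hx => ?_
        rw [mem_closedBall_zero_iff]
        have h2 := norm_le j x
        rw [abs_of_pos (show 0 < x j by linarith [hx.1])] at h2
        have h3 := mul_le_mul_of_nonneg_left (mono_log (by linarith [hx.1]) hx.2.1)
          (show 0 ≤ m / 2 by positivity)
        linarith [hx.2.1, hx.2.2]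
    have hmax := maxp j (D := dom j m y0 ∩ {x | x j < Y}) (K := K) (W := B - H) (G := B - g)
      ((dom_open _ _ _).inter (isOpen_lt (by fun_prop) continuous_const)) hKc
      (fun x hx => ⟨hx.1.1.le, le_of_lt hx.2, hx.1.2.le⟩)
      (fun x hx => (hBh x hx.1.1.le).sub (hH x hx.1))
      ((HarmonicOnNhd.continuousOn fun x hx => hBh x hx.1).sub hgc.continuousOn)
      (fun x hx => sub_le_sub_left (hHg x hx.1) _) ?_ z0 ⟨hz0D, by
        show z0 j < Y
        rw [hz0j]; linarith⟩
    · have : (B - H) z0 = M * (u z0 - C) - 1 / 7 * v z0 - H z0 := rfl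
      rw [this, hMe] at hmax
      linarith [le_abs_self (H z0), le_abs_self (v z0), abs_nonneg (v z0)]
    · intro x hx hxD
      obtain ⟨hx1, hx2, hx3⟩ := hx
      have hxl := hlog _ hx1
      have hxp : 0 < x j := by linarith
      set μ := Real.sqrt (Real.log (x j)) with hμ
      have hμ2 : μ ^ 2 = Real.log (x j) := Real.sq_sqrt (by nlinarith)
      have hμμ : μ0 ≤ μ := Real.le_sqrt_of_sq_le hxl
      have hterm : ∀ i ∈ Finset.univ.erase j, f2 (pr j i x) ≤ 1.07 * x j * μ ^ 3 ∧
          f2 (pr j i x) ≤ 1.07 * x j * μ ^ 3 - 1.49 * μ * (1.57 * |x i| - 2 * x j) := by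
        intro i hi
        have hw : 1 < (pr j i x).re := by rw [pr_re]; linarith
        have := f2_le (w := pr j i x) (μ := μ) hw (by linarith) (by rw [pr_re]; exact hμ2)
          (log_bound (m := m) hw (by linarith) hμμ (by rw [pr_re]; exact hμ2)
            (by rw [pr_re, pr_im]; exact (le_T hi x).trans hx3))
        simpa using this
      have hu1 : u x ≤ m * (1.07 * x j * μ ^ 3) := by
        have := Finset.sum_le_sum fun i hi => (hterm i hi).1
        rwa [Finset.sum_const, nsmul_eq_mul, ← hm] at this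
      have hu2 : u x ≤ m * (1.07 * x j * μ ^ 3) - 1.49 * μ * (1.57 * T j x - m * (2 * x j)) := by
        have := Finset.sum_le_sum fun i hi => (hterm i hi).2
        rwa [Finset.sum_sub_distrib, Finset.sum_const, nsmul_eq_mul, ← Finset.mul_sum,
          Finset.sum_sub_distrib, Finset.sum_const, nsmul_eq_mul, ← Finset.mul_sum, ← hm] at this
      have hv1 : -v x ≤ 7 * g x - x j * (μ ^ 2) ^ 2 / 4 := by
        have := f3_le (w := pr j i0 x) (by rw [pr_re]; linarith) (by rw [pr_re]; nlinarith)
        rw [pr_re, pr_im] at this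
        rw [hμ2]
        exact this
      have hq : 0 ≤ x j * (μ ^ 2) ^ 2 := by positivity
      show B x - g x ≤ 0
      rw [hBx]
      by_cases c1 : x j = y0
      · have e : μ = μ0 := by
          rw [hμ, c1, hy0, Real.log_exp, Real.sqrt_sq (by linarith)]
        have : u x - C ≤ 0 := by rw [c1, e] at hu1; rw [hC]; linarith
        have : M * (u x - C) ≤ 0 := mul_nonpos_of_nonneg_of_nonpos hM0.le this
        linarith
      by_cases c2 : x j = Y
      · have e : 30 * M * m ≤ μ := Real.le_sqrt_of_sq_le (by rw [c2]; exact hYl)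
        have a1 : M * (u x - C) ≤ M * (m * (1.07 * x j * μ ^ 3)) :=
          mul_le_mul_of_nonneg_left (by linarith) hM0.le
        have a2 : 30 * M * m * (x j * μ ^ 3) ≤ μ * (x j * μ ^ 3) :=
          mul_le_mul_of_nonneg_right e (by positivity)
        have a3 : 0 ≤ M * m * (x j * μ ^ 3) := by positivity
        nlinarith
      · have c3 : T j x = m / 2 * (x j * μ ^ 2) := by
          rw [hμ2]
          by_contra h
          exact hxD ⟨⟨lt_of_le_of_ne hx1 (Ne.symm c1), lt_of_le_of_ne hx3 h⟩,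
            lt_of_le_of_ne hx2 c2⟩
        rw [c3] at hu2
        have a1 : 0 ≤ m * x j * μ * (0.09 * μ ^ 2 - 2.98) := by
          have : 0 ≤ 0.09 * μ ^ 2 - 2.98 := by nlinarith
          positivity
        have a2 : 0 ≤ m * x j * μ ^ 3 := by positivity
        have : u x - C ≤ 0 := by nlinarith
        have : M * (u x - C) ≤ 0 := mul_nonpos_of_nonneg_of_nonpos hM0.le this
        linarith

end Pool.Agent.Results.MP_677f70_an.Yes
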